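import Pool.Agent.H89.FLT.S

/-!
# FLT, row CYC: a nonzero vector is cyclic
-/

set_option autoImplicit false

open Matrix Polynomial

namespace Pool.FLT

theorem cyc : CYCStmt := by
  intro n η v hirr hv hdet
  obtain ⟨c, hc, hc2⟩ := Matrix.exists_mulVec_eq_zero_iff.mpr hdet
  set ηQ : Matrix (Fin n) (Fin n) ℚ := η.map (Int.castRingHom ℚ) with hηQ
  set vQ : Fin n → ℚ := fun i => (v i : ℚ) with hvQ
  set A : ℚ[X] := ∑ j : Fin n, C (c j : ℚ) * X ^ (j : ℕ) with hA
  have hchar : chQ η = ηQ.charpoly := (Matrix.charpoly_map η (Int.castRingHom ℚ)).symm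
  have hdegA : A.degree < n := Polynomial.degree_sum_fin_lt _
  have hcoef : ∀ j : Fin n, A.coeff j = c j := by
    intro j
    rw [hA, Polynomial.finsetSum_coeff]
    simp only [Polynomial.coeff_C_mul, Polynomial.coeff_X_pow]
    rw [Finset.sum_eq_single j]
    · simp
    · intro i _ hij
      have : (j : ℕ) ≠ i := fun h => hij (Fin.ext h.symm)
      simp [this]
    · intro h
      exact absurd (Finset.mem_univ j) h
  have hA0 : A ≠ 0 := by
    intro h
    apply hc
    funext j
    have h2 := hcoef j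
    rw [h, Polynomial.coeff_zero] at h2
    exact_mod_cast h2.symm
  have hdegc : (chQ η).degree = n := by
    rw [hchar, Matrix.charpoly_degree_eq_dim, Fintype.card_fin]
  have hnd : ¬ chQ η ∣ A := by
    intro h
    have := Polynomial.degree_le_of_dvd h hA0
    rw [hdegc] at this
    exact absurd hdegA (not_lt.mpr this)
  obtain ⟨u, w, huw⟩ := (hirr.coprime_iff_not_dvd).mpr hnd
  have hpow : ∀ k : ℕ, ηQ ^ k = (η ^ k).map (Int.castRingHom ℚ) := by
    intro k
    have := (map_pow (Int.castRingHom ℚ).mapMatrix η k).symm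
    simpa [hηQ, RingHom.mapMatrix_apply] using this
  have hAv : (aeval ηQ A).mulVec vQ = 0 := by
    have h1 : (aeval ηQ A).mulVec vQ = ∑ j : Fin n, (c j : ℚ) • (ηQ ^ (j : ℕ)).mulVec vQ := by
      rw [hA, map_sum, Matrix.sum_mulVec]
      apply Finset.sum_congr rfl
      intro j _
      rw [map_mul, aeval_C, map_pow, aeval_X, Algebra.algebraMap_eq_smul_one, smul_mul_assoc, one_mul,
        Matrix.smul_mulVec]
    rw [h1]
    funext i
    have h2 := congrFun hc2 i
    rw [Matrix.mulVec, dotProduct] at h2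
    simp only [Pi.zero_apply, Wm, Matrix.of_apply] at h2
    have h3 : ((∑ j : Fin n, ((η ^ (j : ℕ)).mulVec v) i * c j : ℤ) : ℚ) = 0 := by
      rw [h2, Int.cast_zero]
    rw [Finset.sum_apply, Pi.zero_apply, ← h3]
    push_cast
    apply Finset.sum_congr rfl
    intro j _
    rw [Pi.smul_apply, smul_eq_mul, mul_comm]
    congr 1
    rw [hpow, Matrix.mulVec, Matrix.mulVec, dotProduct, dotProduct]
    push_cast
    apply Finset.sum_congr rfl
    intro l _
    simp [hvQ]
  have hCH : aeval ηQ (chQ η) = 0 := by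
    rw [hchar]
    exact Matrix.aeval_self_charpoly ηQ
  have hfin : vQ = 0 := by
    have h1 : aeval ηQ (u * chQ η + w * A) = 1 := by
      rw [huw, map_one]
    rw [map_add, map_mul, map_mul, hCH, mul_zero, zero_add] at h1
    calc vQ = (1 : Matrix (Fin n) (Fin n) ℚ).mulVec vQ := (Matrix.one_mulVec vQ).symm
      _ = (aeval ηQ w * aeval ηQ A).mulVec vQ := by rw [h1]
      _ = (aeval ηQ w).mulVec ((aeval ηQ A).mulVec vQ) := (Matrix.mulVec_mulVec _ _ _).symm
      _ = 0 := by rw [hAv, Matrix.mulVec_zero]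
  apply hv
  funext i
  have := congrFun hfin i
  simp only [hvQ, Pi.zero_apply] at this
  exact_mod_cast this

end Pool.FLT
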